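import Pool.Agent.H242R3.ES.StmtsG
import Pool.Agent.H242R3.ES.F2a

set_option autoImplicit false

namespace Pool.Agent.H666R3.ES

open Pool.Agent.H242R3.ES

theorem t : TaskTR1 := by
  intro _ D _ V hint
  exact ⟨(V.finite_toSet.subset (F2aT.ep_sub V)).to_subtype, F2aT.vert V, F2aT.span V hint⟩

end Pool.Agent.H666R3.ES
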